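import Pool.Agent.H380.BG.Stm
import Pool.Graph.R_seed8.W820.TW.FE

/-!
# The continuation of the Rankin-Selberg series (`S_W`)
-/

set_option autoImplicit false

namespace Pool.Agent.H585.BG

open Complex MeasureTheory Filter Topology Set
open Pool.Agent.H380.BG
open Pool.Agent.H575.RD (la)
open scoped ENNReal Real

/-- the archimedean factor -/
noncomputable def ka (s : ℂ) : ℂ := ((π : ℝ) : ℂ) ^ s * ((4 * π : ℝ) : ℂ) ^ (11 + s)

/-- the continuation -/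
noncomputable def WW (E : ℂ → ℂ) (s : ℂ) : ℂ :=
  E s * ka s * (Complex.Gamma (s + 1))⁻¹ * (Complex.Gamma (s + 11))⁻¹

lemma ka_norm (s : ℂ) : ‖ka s‖ = π ^ s.re * (4 * π) ^ (11 + s.re) := by
  unfold ka
  rw [norm_mul, Complex.norm_cpow_eq_rpow_re_of_pos Real.pi_pos,
    Complex.norm_cpow_eq_rpow_re_of_pos (by positivity)]
  simp

lemma ka_real (s : ℝ) : ka s = ((π ^ s * (4 * π) ^ (11 + s) : ℝ) : ℂ) := by
  unfold ka
  rw [Complex.ofReal_mul (π ^ s), Complex.ofReal_cpow Real.pi_pos.le,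
    Complex.ofReal_cpow (by positivity : (0 : ℝ) ≤ 4 * π), Complex.ofReal_add,
    Complex.ofReal_ofNat]

lemma ka_diff : Differentiable ℂ ka := by
  unfold ka
  have h1 : ((π : ℝ) : ℂ) ≠ 0 := by exact_mod_cast Real.pi_ne_zero
  have h2 : ((4 * π : ℝ) : ℂ) ≠ 0 := by
    have : (4 * π : ℝ) ≠ 0 := by positivity
    exact_mod_cast this
  intro s
  exact (differentiableAt_id.const_cpow (Or.inl h1)).mul
    (((differentiableAt_const _).add differentiableAt_id).const_cpow (Or.inl h2))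

lemma WW_diff {E : ℂ → ℂ} (hE : Differentiable ℂ E) : Differentiable ℂ (WW E) := by
  unfold WW
  have h1 : Differentiable ℂ (fun s : ℂ => (Complex.Gamma (s + 1))⁻¹) :=
    Complex.differentiable_one_div_Gamma.comp (differentiable_id.add (differentiable_const _))
  have h2 : Differentiable ℂ (fun s : ℂ => (Complex.Gamma (s + 11))⁻¹) :=
    Complex.differentiable_one_div_Gamma.comp (differentiable_id.add (differentiable_const _))
  exact ((hE.mul ka_diff).mul h1).mul h2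

/-- the series -/
lemma ser_eq {b : ℕ → ℝ} (h0 : b 0 = 0) (s : ℂ) :
    ∑' n : ℕ, (b n : ℂ) * (n : ℂ) ^ (-s) = LSeries (fun n => (b n : ℂ)) s := by
  unfold LSeries
  refine tsum_congr fun n => ?_
  rw [LSeries.term_def]
  split_ifs with h
  · rw [h, h0]
    simp
  · rw [Complex.cpow_neg, div_eq_mul_inv]

lemma cast_term (b : ℕ → ℝ) (s : ℝ) (n : ℕ) :
    ((b n * (n : ℝ) ^ (-s) : ℝ) : ℂ) = (b n : ℂ) * (n : ℂ) ^ (-(s : ℂ)) := by
  rw [Complex.ofReal_mul, Complex.ofReal_cpow (Nat.cast_nonneg n)]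
  push_cast
  rfl

lemma ser_summ {b : ℕ → ℝ} (h0 : b 0 = 0)
    (hs : ∀ s : ℝ, 1 < s → Summable (fun n : ℕ => b n * (n : ℝ) ^ (-s))) :
    LSeries.abscissaOfAbsConv (fun n => (b n : ℂ)) ≤ (1 : ℝ) := by
  refine LSeries.abscissaOfAbsConv_le_of_forall_lt_LSeriesSummable fun y hy => ?_
  have h1 := hs y hy
  have h2 : Summable (fun n : ℕ => ((b n * (n : ℝ) ^ (-y) : ℝ) : ℂ)) :=
    Complex.ofRealCLM.summable h1
  refine h2.congr fun n => ?_
  rw [cast_term, LSeries.term_def]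
  split_ifs with h
  · rw [h, h0]
    simp
  · rw [Complex.cpow_neg, div_eq_mul_inv]

lemma ser_ana {b : ℕ → ℝ} (h0 : b 0 = 0)
    (hs : ∀ s : ℝ, 1 < s → Summable (fun n : ℕ => b n * (n : ℝ) ^ (-s))) :
    AnalyticOnNhd ℂ (fun s : ℂ => (s - 1) * ∑' n : ℕ, (b n : ℂ) * (n : ℂ) ^ (-s))
      {s : ℂ | 1 < s.re} := by
  have h1 : AnalyticOnNhd ℂ (LSeries (fun n => (b n : ℂ))) {s : ℂ | 1 < s.re} := by
    refine (LSeries_analyticOnNhd _).mono fun s hs' => ?_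
    have h2 := ser_summ h0 hs
    have h3 : ((1 : ℝ) : EReal) < (s.re : EReal) := EReal.coe_lt_coe_iff.2 hs'
    exact lt_of_le_of_lt h2 h3
  have h2 : (fun s : ℂ => (s - 1) * ∑' n : ℕ, (b n : ℂ) * (n : ℂ) ^ (-s)) =
      fun s : ℂ => (s - 1) * LSeries (fun n => (b n : ℂ)) s := by
    funext s
    rw [ser_eq h0]
  rw [h2]
  exact (analyticOnNhd_id.sub analyticOnNhd_const).mul h1

/-- equality on the real half line -/
lemma WW_real {E : ℂ → ℂ}
    (hE : ∀ s : ℝ, 1 < s → E s = ((s * (s - 1) * ar s * ((zs s).toReal * (rs s).toReal) : ℝ) : ℂ))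
    (h2 : S_COEF) (h3 : S_INT) {s : ℝ} (hs : 1 < s) :
    WW E s = ((s : ℂ) - 1) * ∑' n : ℕ, (bb n : ℂ) * (n : ℂ) ^ (-(s : ℂ)) := by
  have h4 := (h2.2.2.2 s hs (h3.2.2.1 s hs)).2
  have hs0 : 0 < s := by linarith
  have hG : 0 < Real.Gamma s := Real.Gamma_pos_of_pos hs0
  have hG11 : 0 < Real.Gamma (11 + s) := Real.Gamma_pos_of_pos (by linarith)
  have e1 : Complex.Gamma ((s : ℂ) + 1) = ((s * Real.Gamma s : ℝ) : ℂ) := by
    rw [← Real.Gamma_add_one hs0.ne', ← Complex.Gamma_ofReal]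
    push_cast
    rfl
  have e2 : Complex.Gamma ((s : ℂ) + 11) = ((Real.Gamma (11 + s) : ℝ) : ℂ) := by
    rw [← Complex.Gamma_ofReal]
    push_cast
    rw [add_comm]
  have e3 : ∑' n : ℕ, (bb n : ℂ) * (n : ℂ) ^ (-(s : ℂ)) =
      ((∑' n : ℕ, bb n * (n : ℝ) ^ (-s) : ℝ) : ℂ) := by
    rw [Complex.ofReal_tsum]
    exact tsum_congr fun n => (cast_term bb s n).symm
  unfold WW
  rw [hE s hs, ka_real, e1, e2, e3, ← h4]
  have hp1 : 0 < π ^ s := Real.rpow_pos_of_pos Real.pi_pos _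
  have hp2 : 0 < (4 * π) ^ (11 + s) := Real.rpow_pos_of_pos (by positivity) _
  have e4 : s * (s - 1) * ar s * ((zs s).toReal * (rs s).toReal) *
      (π ^ s * (4 * π) ^ (11 + s)) * (s * Real.Gamma s)⁻¹ * (Real.Gamma (11 + s))⁻¹ =
      (s - 1) * ((zs s).toReal * (rs s).toReal) := by
    unfold ar
    field_simp
  exact_mod_cast e4

lemma WW_ser {E : ℂ → ℂ} (hEd : Differentiable ℂ E)
    (hE : ∀ s : ℝ, 1 < s → E s = ((s * (s - 1) * ar s * ((zs s).toReal * (rs s).toReal) : ℝ) : ℂ))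
    (h2 : S_COEF) (h3 : S_INT) {s : ℂ} (hs : 1 < s.re) :
    WW E s = (s - 1) * ∑' n : ℕ, (bb n : ℂ) * (n : ℂ) ^ (-s) := by
  have hsum : ∀ s : ℝ, 1 < s → Summable (fun n : ℕ => bb n * (n : ℝ) ^ (-s)) := fun s hs =>
    (h2.2.2.2 s hs (h3.2.2.1 s hs)).1
  have hA : AnalyticOnNhd ℂ (WW E) {s : ℂ | 1 < s.re} := fun z _ =>
    (WW_diff hEd).analyticAt z
  have hB := ser_ana h2.1 hsum
  have hU : IsPreconnected {s : ℂ | 1 < s.re} := (convex_halfSpace_re_gt 1).isPreconnected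
  have hfreq : ∃ᶠ z in 𝓝[≠] (2 : ℂ), WW E z = (fun s : ℂ => (s - 1) *
      ∑' n : ℕ, (bb n : ℂ) * (n : ℂ) ^ (-s)) z := by
    have ht : Tendsto (fun k : ℕ => (((2 : ℝ) + 1 / ((k : ℝ) + 1) : ℝ) : ℂ)) atTop (𝓝[≠] (2 : ℂ)) := by
      rw [tendsto_nhdsWithin_iff]
      constructor
      · have h4 : Tendsto (fun k : ℕ => (2 : ℝ) + 1 / ((k : ℝ) + 1)) atTop (𝓝 (2 + 0)) :=
          tendsto_const_nhds.add tendsto_one_div_add_atTop_nhds_zero_nat
        rw [add_zero] at h4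
        have h5 := (Complex.continuous_ofReal.tendsto 2).comp h4
        exact_mod_cast h5
      · refine Eventually.of_forall fun k => ?_
        rw [mem_compl_iff, mem_singleton_iff]
        intro h
        have h6 : (2 : ℝ) + 1 / ((k : ℝ) + 1) = 2 := by exact_mod_cast h
        have h7 : 0 < 1 / ((k : ℝ) + 1) := by positivity
        linarith
    refine ht.frequently (Frequently.of_forall fun k => ?_)
    exact WW_real hE h2 h3 (s := 2 + 1 / ((k : ℝ) + 1)) (by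
      have h7 : 0 < 1 / ((k : ℝ) + 1) := by positivity
      linarith)
  exact hA.eqOn_of_preconnected_of_frequently_eq hB hU (by simp) hfreq hs

/-- growth in the strip -/
lemma WW_gr {E : ℂ → ℂ} (hEd : Differentiable ℂ E)
    (hb : ∃ C : ℝ, ∀ s : ℂ, -1 ≤ s.re → s.re ≤ 2 → ‖E s‖ ≤ C * (1 + ‖s‖) ^ 2) :
    ∃ C : ℝ, ∀ s : ℂ, -1 ≤ s.re → s.re ≤ 2 →
      ‖WW E s‖ ≤ Real.exp (C * (1 + |s.im|) ^ (3 / 2 : ℝ)) := by
  obtain ⟨C0, hC0⟩ := hb
  obtain ⟨M, hM0, hM⟩ := Pool.Agent.W820.TW.inv_Gamma_le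
  have hp1 : 1 ≤ π := by linarith [Real.pi_gt_three]
  -- the compact part
  obtain ⟨B, hB⟩ : ∃ B : ℝ, ∀ s : ℂ, -1 ≤ s.re → s.re ≤ 2 → |s.im| ≤ 1 → ‖WW E s‖ ≤ B := by
    have hc : IsCompact (Metric.closedBall (0 : ℂ) 3) := isCompact_closedBall 0 3
    obtain ⟨B, hB⟩ := hc.exists_bound_of_continuousOn (WW_diff hEd).continuous.continuousOn
    refine ⟨B, fun s h1 h2 h3 => hB s ?_⟩
    rw [mem_closedBall_zero_iff]
    refine (Complex.norm_le_abs_re_add_abs_im s).trans ?_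
    have h4 : |s.re| ≤ 2 := abs_le.2 ⟨by linarith, h2⟩
    linarith
  set K : ℝ := |C0| * 16 * (π ^ (2 : ℝ) * (4 * π) ^ (13 : ℝ)) * M ^ 2 with hK
  have hK0 : 0 ≤ K := by positivity
  refine ⟨|B| + K + 2 * π + 2, fun s h1 h2 => ?_⟩
  have him := abs_nonneg s.im
  have hx1 : 1 ≤ 1 + |s.im| := by linarith
  have hpow : 1 + |s.im| ≤ (1 + |s.im|) ^ (3 / 2 : ℝ) := by
    have := Real.rpow_le_rpow_of_exponent_le hx1 (show (1 : ℝ) ≤ 3 / 2 by norm_num)
    rwa [Real.rpow_one] at this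
  have hpow1 : 1 ≤ (1 + |s.im|) ^ (3 / 2 : ℝ) := hx1.trans hpow
  have hB0 := abs_nonneg B
  have hpi := Real.pi_pos
  rcases le_or_gt |s.im| 1 with h | h
  · have h3 := hB s h1 h2 h
    have h4 : B ≤ Real.exp |B| := (le_abs_self B).trans (by
      have := Real.add_one_le_exp |B|
      linarith)
    refine h3.trans (h4.trans (Real.exp_le_exp.2 ?_))
    have h5 : |B| * 1 ≤ (|B| + K + 2 * π + 2) * (1 + |s.im|) ^ (3 / 2 : ℝ) :=
      mul_le_mul (by linarith) hpow1 (by norm_num) (by positivity)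
    linarith
  · have hE := hC0 s h1 h2
    have hs : ‖s‖ ≤ 2 + |s.im| := by
      refine (Complex.norm_le_abs_re_add_abs_im s).trans ?_
      have h4 : |s.re| ≤ 2 := abs_le.2 ⟨by linarith, h2⟩
      linarith
    have hs2 : (1 + ‖s‖) ^ 2 ≤ 16 * Real.exp (2 * |s.im|) := by
      have h5 : 1 + ‖s‖ ≤ 4 * Real.exp |s.im| := by
        have := Real.add_one_le_exp |s.im|
        linarith
      have h6 := pow_le_pow_left₀ (by positivity) h5 2
      have e : (4 * Real.exp |s.im|) ^ 2 = 16 * Real.exp (2 * |s.im|) := by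
        rw [mul_pow, ← Real.exp_nat_mul]
        norm_num
      rwa [e] at h6
    have hE2 : ‖E s‖ ≤ |C0| * (16 * Real.exp (2 * |s.im|)) :=
      hE.trans (mul_le_mul (le_abs_self C0) hs2 (by positivity) (abs_nonneg _))
    have hka : ‖ka s‖ ≤ π ^ (2 : ℝ) * (4 * π) ^ (13 : ℝ) := by
      rw [ka_norm]
      apply mul_le_mul
      · exact Real.rpow_le_rpow_of_exponent_le hp1 h2
      · exact Real.rpow_le_rpow_of_exponent_le (by linarith) (by linarith)
      · positivity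
      · positivity
    have hg1 : ‖(Complex.Gamma (s + 1))⁻¹‖ ≤ M * Real.exp (π * |s.im|) := by
      have := hM (s + 1) (by simp; linarith) (by simp; linarith)
      simpa using this
    have hg2 : ‖(Complex.Gamma (s + 11))⁻¹‖ ≤ M * Real.exp (π * |s.im|) := by
      have := hM (s + 11) (by simp; linarith) (by simp; linarith)
      simpa using this
    have h7 : ‖WW E s‖ ≤ |C0| * (16 * Real.exp (2 * |s.im|)) * (π ^ (2 : ℝ) * (4 * π) ^ (13 : ℝ)) *
        (M * Real.exp (π * |s.im|)) * (M * Real.exp (π * |s.im|)) := by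
      unfold WW
      rw [norm_mul, norm_mul, norm_mul]
      gcongr
    have e : |C0| * (16 * Real.exp (2 * |s.im|)) * (π ^ (2 : ℝ) * (4 * π) ^ (13 : ℝ)) *
        (M * Real.exp (π * |s.im|)) * (M * Real.exp (π * |s.im|)) =
        K * Real.exp ((2 * π + 2) * |s.im|) := by
      have e2 : Real.exp ((2 * π + 2) * |s.im|) =
          Real.exp (2 * |s.im|) * Real.exp (π * |s.im|) * Real.exp (π * |s.im|) := by
        rw [← Real.exp_add, ← Real.exp_add]
        congr 1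
        ring
      rw [e2, hK]
      ring
    rw [e] at h7
    refine h7.trans ?_
    have h8 : K ≤ Real.exp K := by
      have := Real.add_one_le_exp K
      linarith
    calc K * Real.exp ((2 * π + 2) * |s.im|) ≤ Real.exp K * Real.exp ((2 * π + 2) * |s.im|) :=
          mul_le_mul_of_nonneg_right h8 (Real.exp_pos _).le
      _ = Real.exp (K + (2 * π + 2) * |s.im|) := by rw [Real.exp_add]
      _ ≤ Real.exp ((|B| + K + 2 * π + 2) * (1 + |s.im|) ^ (3 / 2 : ℝ)) := by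
          apply Real.exp_le_exp.2
          have h9 : (|B| + K + 2 * π + 2) * (1 + |s.im|) ≤
              (|B| + K + 2 * π + 2) * (1 + |s.im|) ^ (3 / 2 : ℝ) :=
            mul_le_mul_of_nonneg_left hpow (by positivity)
          have h10 : 0 ≤ (|B| + K) * |s.im| := by positivity
          have h11 : (|B| + K + 2 * π + 2) * (1 + |s.im|) =
            |B| + K + 2 * π + 2 + (|B| + K) * |s.im| + (2 * π + 2) * |s.im| := by ring
          linarith

lemma gam_step {a t : ℝ} (ha : 0 < a) :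
    ‖Complex.Gamma (((a + 2 : ℝ) : ℂ) - I * t)‖ = ‖((a + 1 : ℝ) : ℂ) + I * t‖ *
      (‖(a : ℂ) + I * t‖ * ‖Complex.Gamma ((a : ℂ) + I * t)‖) := by
  have h1 : ((a + 2 : ℝ) : ℂ) - I * t = (starRingEnd ℂ) ((((a : ℂ) + I * t) + 1) + 1) := by
    apply Complex.ext
    · simp
      ring
    · simp
  have h2 : (a : ℂ) + I * t ≠ 0 := by
    intro h
    have := congrArg Complex.re h
    simp at this
    linarith
  have h3 : ((a : ℂ) + I * t) + 1 ≠ 0 := by
    intro h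
    have := congrArg Complex.re h
    simp at this
    linarith
  rw [h1, Complex.Gamma_conj, Complex.norm_conj, Complex.Gamma_add_one _ h3,
    Complex.Gamma_add_one _ h2, norm_mul, norm_mul]
  congr 2
  push_cast
  ring

lemma norm_line {a t : ℝ} (ha : 0 < a) : ‖(a : ℂ) + I * t‖ ≤ (1 + a) * (1 + |t|) := by
  refine (norm_add_le _ _).trans ?_
  rw [norm_mul, Complex.norm_I, one_mul, Complex.norm_real, Complex.norm_real, Real.norm_eq_abs,
    Real.norm_eq_abs, abs_of_pos ha]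
  have := abs_nonneg t
  nlinarith [mul_nonneg ha.le this]

lemma WW_left {E : ℂ → ℂ} (hEd : Differentiable ℂ E) (hfe : ∀ s, E (1 - s) = E s)
    (hE : ∀ s : ℝ, 1 < s → E s = ((s * (s - 1) * ar s * ((zs s).toReal * (rs s).toReal) : ℝ) : ℂ))
    (h2 : S_COEF) (h3 : S_INT) :
    ∃ C : ℝ, ∀ t : ℝ, ‖WW E (-(1 / 2) + I * t)‖ ≤ C * (1 + |t|) ^ (5 : ℕ) := by
  have hsum : Summable (fun n : ℕ => bb n * (n : ℝ) ^ (-(3 / 2 : ℝ))) :=
    (h2.2.2.2 (3 / 2) (by norm_num) (h3.2.2.1 _ (by norm_num))).1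
  set S : ℝ := ∑' n : ℕ, bb n * (n : ℝ) ^ (-(3 / 2 : ℝ)) with hS
  have hS0 : 0 ≤ S := tsum_nonneg fun n =>
    mul_nonneg (h2.2.1 n) (Real.rpow_nonneg (Nat.cast_nonneg n) _)
  set R : ℝ := (π ^ (-(1 / 2) : ℝ) * (4 * π) ^ (11 + -(1 / 2) : ℝ)) /
    (π ^ (3 / 2 : ℝ) * (4 * π) ^ (11 + 3 / 2 : ℝ)) with hR
  have hR0 : 0 ≤ R := by positivity
  refine ⟨S * (1 + (1 / 2 + 1)) * (1 + 1 / 2) * (1 + (21 / 2 + 1)) * (1 + 21 / 2) * R,
    fun t => ?_⟩
  set s : ℂ := -(1 / 2) + I * t with hs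
  set z : ℂ := 3 / 2 - I * t with hz
  have hzs : z = 1 - s := by rw [hz, hs]; ring
  have hzr : z.re = 3 / 2 := by simp [hz]
  have hsr : s.re = -(1 / 2) := by simp [hs]
  have ht0 := abs_nonneg t
  have hser := WW_ser hEd hE h2 h3 (s := z) (by rw [hzr]; norm_num)
  have hWz : ‖WW E z‖ ≤ (1 + |t|) * S := by
    rw [hser, norm_mul]
    apply mul_le_mul
    · have h4 : z - 1 = ((1 / 2 : ℝ) : ℂ) - I * t := by rw [hz]; push_cast; ring
      rw [h4]
      refine (norm_sub_le _ _).trans ?_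
      rw [norm_mul, Complex.norm_I, one_mul, Complex.norm_real, Complex.norm_real,
        Real.norm_eq_abs, Real.norm_eq_abs, abs_of_pos (by norm_num : (0 : ℝ) < 1 / 2)]
      linarith
    · refine tsum_of_norm_bounded hsum.hasSum fun n => ?_
      rcases Nat.eq_zero_or_pos n with hn | hn
      · rw [hn, h2.1]
        simp
      · rw [norm_mul, Complex.norm_real, Real.norm_eq_abs, abs_of_nonneg (h2.2.1 n),
          Complex.norm_natCast_cpow_of_pos hn, Complex.neg_re, hzr]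
    · exact norm_nonneg _
    · linarith
  have hkz : ‖ka z‖ = π ^ (3 / 2 : ℝ) * (4 * π) ^ (11 + 3 / 2 : ℝ) := by rw [ka_norm, hzr]
  have hks : ‖ka s‖ = π ^ (-(1 / 2) : ℝ) * (4 * π) ^ (11 + -(1 / 2) : ℝ) := by
    rw [ka_norm, hsr]
  have hkz0 : ka z ≠ 0 := by
    rw [← norm_pos_iff, hkz]
    positivity
  have hG1 : Complex.Gamma (z + 1) ≠ 0 := Complex.Gamma_ne_zero_of_re_pos (by
    rw [Complex.add_re, hzr, Complex.one_re]; norm_num)
  have hG2 : Complex.Gamma (z + 11) ≠ 0 := Complex.Gamma_ne_zero_of_re_pos (by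
    rw [Complex.add_re, hzr]; norm_num)
  have hG3 : Complex.Gamma (s + 1) ≠ 0 := Complex.Gamma_ne_zero_of_re_pos (by
    rw [Complex.add_re, hsr, Complex.one_re]; norm_num)
  have hG4 : Complex.Gamma (s + 11) ≠ 0 := Complex.Gamma_ne_zero_of_re_pos (by
    rw [Complex.add_re, hsr]; norm_num)
  have hEz : E s = WW E z * Complex.Gamma (z + 1) * Complex.Gamma (z + 11) / ka z := by
    rw [← hfe s, ← hzs]
    unfold WW
    field_simp
  have hn : ‖WW E s‖ = ‖WW E z‖ * ‖Complex.Gamma (z + 1)‖ * ‖Complex.Gamma (z + 11)‖ / ‖ka z‖ *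
      ‖ka s‖ * ‖Complex.Gamma (s + 1)‖⁻¹ * ‖Complex.Gamma (s + 11)‖⁻¹ := by
    have e : WW E s = E s * ka s * (Complex.Gamma (s + 1))⁻¹ * (Complex.Gamma (s + 11))⁻¹ := rfl
    rw [e, hEz, norm_mul, norm_mul, norm_mul, norm_div, norm_mul, norm_mul, norm_inv, norm_inv]
  have g1 := gam_step (a := 1 / 2) (t := t) (by norm_num)
  have g2 := gam_step (a := 21 / 2) (t := t) (by norm_num)
  have e1 : z + 1 = (((1 / 2 : ℝ) + 2 : ℝ) : ℂ) - I * t := by rw [hz]; push_cast; ring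
  have e2 : z + 11 = (((21 / 2 : ℝ) + 2 : ℝ) : ℂ) - I * t := by rw [hz]; push_cast; ring
  have e3 : s + 1 = ((1 / 2 : ℝ) : ℂ) + I * t := by rw [hs]; push_cast; ring
  have e4 : s + 11 = ((21 / 2 : ℝ) : ℂ) + I * t := by rw [hs]; push_cast; ring
  rw [← e1, ← e3] at g1
  rw [← e2, ← e4] at g2
  have hg3 : ‖Complex.Gamma (s + 1)‖ ≠ 0 := norm_ne_zero_iff.2 hG3
  have hg4 : ‖Complex.Gamma (s + 11)‖ ≠ 0 := norm_ne_zero_iff.2 hG4
  have hn2 : ‖WW E s‖ = ‖WW E z‖ * ‖(((1 / 2 : ℝ) + 1 : ℝ) : ℂ) + I * t‖ * ‖s + 1‖ *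
      ‖(((21 / 2 : ℝ) + 1 : ℝ) : ℂ) + I * t‖ * ‖s + 11‖ * R := by
    rw [hn, g1, g2, hkz, hks, hR]
    field_simp
  have n1 := norm_line (a := 1 / 2 + 1) (t := t) (by norm_num)
  have n2 := norm_line (a := 1 / 2) (t := t) (by norm_num)
  have n3 := norm_line (a := 21 / 2 + 1) (t := t) (by norm_num)
  have n4 := norm_line (a := 21 / 2) (t := t) (by norm_num)
  rw [← e3] at n2
  rw [← e4] at n4
  rw [hn2]
  calc ‖WW E z‖ * ‖(((1 / 2 : ℝ) + 1 : ℝ) : ℂ) + I * t‖ * ‖s + 1‖ *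
      ‖(((21 / 2 : ℝ) + 1 : ℝ) : ℂ) + I * t‖ * ‖s + 11‖ * R ≤
      ((1 + |t|) * S) * ((1 + (1 / 2 + 1)) * (1 + |t|)) * ((1 + 1 / 2) * (1 + |t|)) *
      ((1 + (21 / 2 + 1)) * (1 + |t|)) * ((1 + 21 / 2) * (1 + |t|)) * R := by gcongr
    _ = _ := by ring

theorem t_W (h1 : S_FEP) (h2 : S_COEF) (h3 : S_INT) : S_W := by
  obtain ⟨E, c, hc, hEd, hfe, hE1, hb, hE⟩ := h1
  refine ⟨WW E, ⟨h2.1, h2.2.1, fun s hs => (h2.2.2.2 s hs (h3.2.2.1 s hs)).1, WW_diff hEd,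
    fun s hs => WW_ser hEd hE h2 h3 hs, WW_gr hEd hb, WW_left hEd hfe hE h2 h3⟩, ?_⟩
  refine ⟨c * (π ^ (1 : ℝ) * (4 * π) ^ (11 + 1 : ℝ)) * (Real.Gamma (1 + 1))⁻¹ *
    (Real.Gamma (1 + 11))⁻¹, ?_, ?_⟩
  · have hG : 0 < Real.Gamma (1 + 1) := Real.Gamma_pos_of_pos (by norm_num)
    have hG2 : 0 < Real.Gamma (1 + 11) := Real.Gamma_pos_of_pos (by norm_num)
    positivity
  · have e0 : ka 1 = ((π ^ (1 : ℝ) * (4 * π) ^ (11 + 1 : ℝ) : ℝ) : ℂ) := by
      have := ka_real 1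
      rwa [Complex.ofReal_one] at this
    have e1 : Complex.Gamma ((1 : ℂ) + 1) = ((Real.Gamma (1 + 1) : ℝ) : ℂ) := by
      rw [← Complex.Gamma_ofReal]
      push_cast
      rfl
    have e2 : Complex.Gamma ((1 : ℂ) + 11) = ((Real.Gamma (1 + 11) : ℝ) : ℂ) := by
      rw [← Complex.Gamma_ofReal]
      push_cast
      rfl
    have e : WW E 1 = E 1 * ka 1 * (Complex.Gamma (1 + 1))⁻¹ * (Complex.Gamma (1 + 11))⁻¹ := rfl
    rw [e, hE1, e0, e1, e2]
    push_cast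
    rfl

end Pool.Agent.H585.BG
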